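import Pool.Agent.W575.Hyp6.Disc
import Pool.Agent.W438.Hyp.Fin

/-!
# Every positive multiple of `8π³/15` is the volume of a hyperbolic 6-manifold
-/

namespace Pool.Agent.Results.MP_cb21b9_gt.AllVolumes

open Pool.Agent.W575.Hyp6 MeasureTheory

/-- For every `k ≥ 1` there is a torsion-free group `Γ` of isometries of hyperbolic 6-space,
acting freely and properly discontinuously, with covolume `k · 8π³/15`. -/
theorem result : ∀ k : ℕ, 1 ≤ k → ∃ Γ : Subgroup PosLor,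
    (∀ γ ∈ Γ, IsOfFinOrder γ → γ = 1) ∧
    (∀ γ ∈ Γ, ∀ x : H6, γ • x = x → γ = 1) ∧
    (∀ x : H6, ∀ C : ℝ, {γ : PosLor | γ ∈ Γ ∧ -B x.1 (γ • x).1 ≤ C}.Finite) ∧
    (∃ D : Set H6, IsFundamentalDomain Γ D hypVol ∧
      hypVol D = ENNReal.ofReal (k * (8 * Real.pi ^ 3 / 15))) ∧
    Γ.index = 414720 * k := by
  intro k hk
  have hfree : ∀ γ ∈ GamK k, ∀ x : H6, γ • x = x → γ = 1 :=
    fun γ hγ x h => Gam_free γ (GamK_le k hγ) x.1 x.2.1 (congrArg Subtype.val h)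
  exact ⟨GamK k, fun γ hγ h => Gam_torsion_free γ (GamK_le k hγ) h, hfree,
    fun x C => (proper x C).subset (fun γ h => h.2),
    Pool.Agent.W438.Hyp.exists_fd_min (GamK k) k hk (index_GamK k) hfree, index_GamK k⟩

end Pool.Agent.Results.MP_cb21b9_gt.AllVolumes
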